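import Pool.Agent.Helper24_TOR.B
import Pool.Agent.Helper41_TOR.Tz

/-!
# Part (a) of S01763 from local finiteness over the stabiliser of the boundary word
-/

set_option autoImplicit false

namespace Pool.Agent.TOR.H24

open CategoryTheory Rep Representation Pool.Agent.TOR

/-- the boundary word -/
def zet (n : ℕ) : FreeGroup (Fin 2 × Fin n) :=
  ((List.finRange n).map (fun j => FreeGroup.of ((0 : Fin 2), j) * FreeGroup.of ((1 : Fin 2), j)
              * (FreeGroup.of ((0 : Fin 2), j))⁻¹ * (FreeGroup.of ((1 : Fin 2), j))⁻¹)).prod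

/-- the first half of the frozen statement, for one i and n -/
def PartA (i n : ℕ) : Prop :=
  ∀ T : Subgroup (MulAut (FreeGroup (Fin 2 × Fin n))),
      (∀ φ : MulAut (FreeGroup (Fin 2 × Fin n)), φ ∈ T ↔
        (φ ((List.finRange n).map (fun j => FreeGroup.of ((0 : Fin 2), j) * FreeGroup.of ((1 : Fin 2), j)
              * (FreeGroup.of ((0 : Fin 2), j))⁻¹ * (FreeGroup.of ((1 : Fin 2), j))⁻¹)).prod
          = ((List.finRange n).map (fun j => FreeGroup.of ((0 : Fin 2), j) * FreeGroup.of ((1 : Fin 2), j)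
              * (FreeGroup.of ((0 : Fin 2), j))⁻¹ * (FreeGroup.of ((1 : Fin 2), j))⁻¹)).prod ∧
         ∀ x : FreeGroup (Fin 2 × Fin n), Abelianization.of (φ x) = Abelianization.of x)) →
      ∀ x : groupHomology (Rep.trivial ℚ T ℚ) i,
        ∃ W : Submodule ℚ (groupHomology (Rep.trivial ℚ T ℚ) i),
          x ∈ W ∧ FiniteDimensional ℚ W ∧
          ∀ g : MulAut (FreeGroup (Fin 2 × Fin n)),
            g ((List.finRange n).map (fun j => FreeGroup.of ((0 : Fin 2), j) * FreeGroup.of ((1 : Fin 2), j)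
              * (FreeGroup.of ((0 : Fin 2), j))⁻¹ * (FreeGroup.of ((1 : Fin 2), j))⁻¹)).prod
            = ((List.finRange n).map (fun j => FreeGroup.of ((0 : Fin 2), j) * FreeGroup.of ((1 : Fin 2), j)
              * (FreeGroup.of ((0 : Fin 2), j))⁻¹ * (FreeGroup.of ((1 : Fin 2), j))⁻¹)).prod →
            ∀ f : T →* T,
              (∀ t : T, ((f t : T) : MulAut (FreeGroup (Fin 2 × Fin n)))
                  = g * (t : MulAut (FreeGroup (Fin 2 × Fin n))) * g⁻¹) →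
              ∀ ψ, ∀ y ∈ W,
                (groupHomology.map f ψ i :
                  groupHomology (Rep.trivial ℚ T ℚ) i ⟶ groupHomology (Rep.trivial ℚ T ℚ) i).hom y ∈ W

section

variable {N N' N'' : Type} [Group N] [Group N'] [Group N'']

theorem hn_comp' (a : N →* N') (b : N' →* N'') (i : ℕ)
    (x : groupHomology (Rep.trivial ℚ N ℚ) i) : hn b i (hn a i x) = hn (b.comp a) i x :=
  gI_comp (A := Rep.trivial ℚ N ℚ) (B := Rep.trivial ℚ N' ℚ) (C := Rep.trivial ℚ N'' ℚ) a b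
    (𝟙 (Rep.trivial ℚ N ℚ)) (𝟙 (Rep.trivial ℚ N' ℚ)) (𝟙 (Rep.trivial ℚ N ℚ)) (fun _ => rfl) i x

theorem hn_id' (i : ℕ) (x : groupHomology (Rep.trivial ℚ N ℚ) i) :
    hn (MonoidHom.id N) i x = x :=
  DFunLike.congr_fun (hm_id (N := N) i) x

theorem hn_inj (e : N ≃* N') (i : ℕ) : Function.Injective (hn e.toMonoidHom i) := by
  refine Function.LeftInverse.injective (g := hn e.symm.toMonoidHom i) fun x => ?_
  rw [hn_comp']
  have h : e.symm.toMonoidHom.comp e.toMonoidHom = MonoidHom.id N := by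
    ext x; exact e.symm_apply_apply x
  rw [h, hn_id']

end

/-- transport of local finiteness along the inclusion of the stabiliser -/
theorem partA_of (i n : ℕ) (Γ : Subgroup (MulAut (FreeGroup (Fin 2 × Fin n))))
    (hΓ : ∀ g, g ∈ Γ ↔ g (zet n) = zet n) (N₀ : Subgroup Γ) [N₀.Normal]
    (hN₀ : ∀ φ : Γ, φ ∈ N₀ ↔ ∀ x : FreeGroup (Fin 2 × Fin n),
      Abelianization.of ((φ : MulAut (FreeGroup (Fin 2 × Fin n))) x) = Abelianization.of x)
    (h : ∀ x : groupHomology (Rep.trivial ℚ N₀ ℚ) i,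
      ∃ W : Submodule ℚ (groupHomology (Rep.trivial ℚ N₀ ℚ) i), x ∈ W ∧ FiniteDimensional ℚ W ∧
        ∀ g : Γ, ∀ y ∈ W, cR N₀ i g y ∈ W) : PartA i n := by
  intro T hT x
  have hTΓ : ∀ t : T, (t : MulAut (FreeGroup (Fin 2 × Fin n))) ∈ Γ := fun t =>
    (hΓ _).2 ((hT _).1 t.2).1
  -- the isomorphism T = N₀
  let e : T ≃* N₀ :=
    { toFun := fun t => ⟨⟨t, hTΓ t⟩, (hN₀ _).2 ((hT _).1 t.2).2⟩
      invFun := fun t => ⟨((t : Γ) : MulAut (FreeGroup (Fin 2 × Fin n))), (hT _).2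
        ⟨(hΓ _).1 (t : Γ).2, (hN₀ _).1 t.2⟩⟩
      left_inv := fun _ => rfl
      right_inv := fun _ => rfl
      map_mul' := fun _ _ => rfl }
  obtain ⟨W, h1, h2, h3⟩ := h (hn e.toMonoidHom i x)
  refine ⟨W.comap (hn e.toMonoidHom i), h1, ?_, fun g hg f hf ψ y hy => ?_⟩
  · have hinj := hn_inj e i
    let L : (W.comap (hn e.toMonoidHom i)) →ₗ[ℚ] W :=
      (hn e.toMonoidHom i).restrict (fun y hy => hy)
    refine FiniteDimensional.of_injective L ?_
    intro a b hab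
    apply Subtype.ext
    apply hinj
    exact congrArg Subtype.val hab
  · obtain ⟨a, ha⟩ := hm_scalar f ψ i y
    rw [ha]
    refine Submodule.smul_mem _ a ?_
    change hn e.toMonoidHom i (hm f i y) ∈ W
    have hgΓ : g ∈ Γ := (hΓ g).2 hg
    have e1 : hn e.toMonoidHom i (hm f i y) = cR N₀ i ⟨g, hgΓ⟩ (hn e.toMonoidHom i y) := by
      have h4 : hn e.toMonoidHom i (hm f i y) = hn (e.toMonoidHom.comp f) i y :=
        hn_comp' f e.toMonoidHom i y
      have h5 : cR N₀ i ⟨g, hgΓ⟩ (hn e.toMonoidHom i y) =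
          hn ((cN N₀ ⟨g, hgΓ⟩).comp e.toMonoidHom) i y :=
        hn_comp' e.toMonoidHom (cN N₀ ⟨g, hgΓ⟩) i y
      rw [h4, h5]
      congr 2
      ext t : 1
      apply Subtype.ext
      rw [MonoidHom.comp_apply, MonoidHom.comp_apply, cN_coe]
      apply Subtype.ext
      exact hf t
    rw [e1]
    exact h3 _ _ hy

/-- the frozen statement from its two halves -/
theorem main_of (hA : ∀ i : ℕ, 1 ≤ i → ∃ N₀ : ℕ, ∀ n : ℕ, N₀ ≤ n → PartA i n)
    (hB : ∀ i : ℕ, 1 ≤ i → ∃ N₀ : ℕ, ∀ n : ℕ, N₀ ≤ n → PartB i n) :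
    ∀ i : ℕ, 1 ≤ i → ∃ N₀ : ℕ, ∀ n : ℕ, N₀ ≤ n → PartA i n ∧ PartB i n := by
  intro i hi
  obtain ⟨a, ha⟩ := hA i hi
  obtain ⟨b, hb⟩ := hB i hi
  exact ⟨max a b, fun n hn => ⟨ha n ((le_max_left _ _).trans hn), hb n ((le_max_right _ _).trans hn)⟩⟩

end Pool.Agent.TOR.H24
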