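import Pool.Agent.Helper41_TOR.Tm
import Pool.Agent.Helper56_TOR.LfB

/-!
# Part (b) of S01763 from nilpotence of the transvections
-/

set_option autoImplicit false

namespace Pool.Agent.TOR.H24

open CategoryTheory Rep Representation Pool.Agent.TOR

/-- the hypothesis on the Nielsen transvections in degree i, rank n -/
def NilT (i n : ℕ) : Prop :=
  ∀ (N : Subgroup (MulAut (FreeGroup (Fin n)))) [N.Normal],
    (∀ φ : MulAut (FreeGroup (Fin n)), φ ∈ N ↔
      ∀ x : FreeGroup (Fin n), Abelianization.of (φ x) = Abelianization.of x) →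
    ∀ a b : Fin n, a ≠ b → ∀ t : MulAut (FreeGroup (Fin n)),
      t (FreeGroup.of b) = FreeGroup.of a * FreeGroup.of b →
      (∀ c, c ≠ b → t (FreeGroup.of c) = FreeGroup.of c) →
      ∀ x : groupHomology (Rep.trivial ℚ N ℚ) i, ∃ m : ℕ, ((cR N i t - 1) ^ m) x = 0

/-- the second half of the frozen statement, for one i and n -/
def PartB (i n : ℕ) : Prop :=
  ∀ N : Subgroup (MulAut (FreeGroup (Fin n))),
      (∀ φ : MulAut (FreeGroup (Fin n)), φ ∈ N ↔
        ∀ x : FreeGroup (Fin n), Abelianization.of (φ x) = Abelianization.of x) →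
      ∀ x : groupHomology (Rep.trivial ℚ N ℚ) i,
        ∃ W : Submodule ℚ (groupHomology (Rep.trivial ℚ N ℚ) i),
          x ∈ W ∧ FiniteDimensional ℚ W ∧
          ∀ g : MulAut (FreeGroup (Fin n)),
            ∀ f : N →* N,
              (∀ t : N, ((f t : N) : MulAut (FreeGroup (Fin n)))
                  = g * (t : MulAut (FreeGroup (Fin n))) * g⁻¹) →
              ∀ ψ, ∀ y ∈ W,
                (groupHomology.map f ψ i :
                  groupHomology (Rep.trivial ℚ N ℚ) i ⟶ groupHomology (Rep.trivial ℚ N ℚ) i).hom y ∈ W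

theorem ab_congr {F : Type} [Group F] (g : MulAut F) (x y : F)
    (h : Abelianization.of x = Abelianization.of y) :
    Abelianization.of (g x) = Abelianization.of (g y) := by
  have h1 := congrArg (Abelianization.map (g : F ≃* F).toMonoidHom) h
  simpa [Abelianization.map_of] using h1

theorem normal_of {F : Type} [Group F] (N : Subgroup (MulAut F))
    (hN : ∀ φ : MulAut F, φ ∈ N ↔ ∀ x : F, Abelianization.of (φ x) = Abelianization.of x) :
    N.Normal := by
  refine ⟨fun t ht g => (hN _).2 fun x => ?_⟩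
  have h1 := (hN t).1 ht (g⁻¹ x)
  have h2 := ab_congr g _ _ h1
  have h3 : g (g⁻¹ x) = x := by
    change (g * g⁻¹) x = x
    rw [mul_inv_cancel]; rfl
  rw [h3] at h2
  exact h2

theorem partB_of (i n : ℕ) (hn : 3 ≤ n) (h : NilT i n) : PartB i n := by
  intro N hN x
  have : N.Normal := normal_of N hN
  obtain ⟨W, h1, h2, h3⟩ := Pool.Agent.TOR.H56.lf_b (cR N i) hn hN
    (fun g hg => cR_mem N i g hg) (fun a b hab t ht1 ht2 y => h N hN a b hab t ht1 ht2 y) x
  refine ⟨W, h1, h2, fun g f hf ψ y hy => ?_⟩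
  obtain ⟨a, ha⟩ := map_eq_cR N i g f hf ψ y
  rw [ha]
  exact W.smul_mem a (h3 g y hy)

end Pool.Agent.TOR.H24
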