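import Pool.Agent.Helper24_TOR.A
import Pool.Agent.Helper36_TOR.Main
import Pool.Agent.Helper56_TOR.LfA
import Pool.Agent.Helper72_TOR.PartB

/-!
# The first half of S01763 from (LU), and the frozen statement from NU
-/

set_option autoImplicit false

namespace Pool.Agent.TOR.H24

open CategoryTheory Rep Representation Pool.Agent.TOR Pool.Agent.TOR.H29 Pool.Agent.TOR.H59

/-- (LU) for one degree gives part (a) in this degree -/
theorem partA_of_LU {q M c : ℕ} (hM : 1 ≤ M) (h : SA.LU q M c) (n : ℕ) (hc : c ≤ n)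
    (hn : 3 ≤ n) : PartA q n := by
  refine partA_of q n (SA.St n) (fun g => Iff.rfl) (SA.IT n) (fun φ => Iff.rfl) fun x => ?_
  exact QD.lf_a (cR (SA.IT n) q) hn (fun φ => SA.mem_St φ)
    (fun g hg => cR_mem (SA.IT n) q g hg) hM
    (fun v hv t ht y => h n hc v hv t (fun z => by rw [one_mul]; exact ht z) y) x

/-- S01763 from Theorem R, change of coordinates, transitivity and near quasi-unipotence -/
theorem frozen_of (hTR : SA.TR) (hCC : SA.CCH) (hT : SA.TRV)
    (hNU : ∀ q, ∃ M K c, 1 ≤ M ∧ SA.NU q M K c) :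
    ∀ i : ℕ, 1 ≤ i → ∃ N₀ : ℕ, ∀ n : ℕ, N₀ ≤ n → PartA i n ∧ PartB i n := by
  refine main_of (fun i _ => ?_) (fun i _ => ?_)
  · obtain ⟨M, c, hM, h⟩ := SA.main hTR hCC hT hNU i
    exact ⟨max c 3, fun n hn => partA_of_LU hM h n (le_trans (le_max_left _ _) hn)
      (le_trans (le_max_right _ _) hn)⟩
  · obtain ⟨N₀, h⟩ := H72.partB_final i
    exact ⟨N₀, fun n hn => h n hn⟩

end Pool.Agent.TOR.H24
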