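import Pool.Agent.TOR.Stmts

set_option autoImplicit false

/-!
# Squad TOR (`MP_b2b50d_lc`), row MAI: one polynomial of the class
-/

namespace Pool.Agent.TOR.H24

open MvPolynomial
open Pool.Agent.RS (FF io total numer io_injective)

noncomputable section

variable {E : Type} [Field E] {ρ : ℕ}

/-- the linear map of the rows -/
def rowM (n : ℕ) (f : Fin ρ → MvPolynomial ℕ E) : (ℕ → FF E) →ₗ[FF E] (Fin ρ → FF E) where
  toFun v := fun l => ∑ x ∈ Finset.range n, v x * io E (X x * pderiv x (f l))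
  map_add' v w := by
    funext l
    simp only [Pi.add_apply, add_mul, Finset.sum_add_distrib]
  map_smul' a v := by
    funext l
    simp only [Pi.smul_apply, smul_eq_mul, Finset.mul_sum, mul_assoc, RingHom.id_apply]

theorem rowM_apply (n : ℕ) (f : Fin ρ → MvPolynomial ℕ E) (v : ℕ → FF E) (l : Fin ρ) :
    rowM n f v l = ∑ x ∈ Finset.range n, v x * io E (X x * pderiv x (f l)) := rfl

/-- the multilinear map -/
def Dl (n : ℕ) (f : Fin ρ → MvPolynomial ℕ E) :
    MultilinearMap (FF E) (fun _ : Fin ρ => ℕ → FF E) (FF E) :=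
  (Matrix.detRowAlternating (n := Fin ρ) (R := FF E)).toMultilinearMap.compLinearMap
    fun _ => rowM n f

theorem Dl_apply (n : ℕ) (f : Fin ρ → MvPolynomial ℕ E) (v : Fin ρ → ℕ → FF E) :
    Dl n f v = (Matrix.of fun i l => rowM n f (v i) l).det := rfl

theorem io_det (A : Matrix (Fin ρ) (Fin ρ) (MvPolynomial ℕ E)) :
    io E A.det = (Matrix.of fun i l => io E (A i l)).det := by
  rw [RingHom.map_det]
  rfl

theorem mai (hFTH : FthStmt) (hDUL : DulStmt) (hDTX : DtxStmt) : MaiStmt := by
  intro E _ _ k c n s D F hF hF0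
  obtain ⟨m, T, Q, hT, hk, hFQ⟩ := hF
  have hvars : ∀ i, (T i).vars ⊆ Finset.range n := fun i => (hDUL E).2 c n s D (T i) (hT i)
  obtain ⟨ρ, σ, γ, hρ, hγ, hdet, hfa⟩ := hFTH E m k n T hvars hk
  have hT0 : ∀ l, T (σ l) ≠ 0 := by
    intro l h0
    refine hdet (Matrix.det_eq_zero_of_column_eq_zero l fun i => ?_)
    rw [Matrix.of_apply, h0, map_zero, mul_zero]
  obtain ⟨ι, hι, V, hcard, hint, hfin, hD⟩ :=
    hDTX E k c n s D ρ (fun l => T (σ l)) hρ (fun l => hT (σ l)) hT0
  refine ⟨ρ, Dl n (fun l => T (σ l)), ι, hι, V, hρ, ⟨γ, hγ, ?_⟩, hcard, hint, hfin, ?_⟩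
  · have h1 : Dl n (fun l => T (σ l)) (fun j => Pi.single (γ j) 1) =
        io E (Matrix.of fun i l => X (γ i) * pderiv (γ i) (T (σ l))).det := by
      rw [io_det, Dl_apply]
      congr 1
      ext i l
      rw [Matrix.of_apply, Matrix.of_apply, Matrix.of_apply, rowM_apply,
        Finset.sum_eq_single (γ i)]
      · rw [Pi.single_eq_same, one_mul]
      · intro x _ hx
        rw [Pi.single_eq_of_ne hx, zero_mul]
      · intro h
        exact absurd (Finset.mem_range.2 (hγ i)) h
    rw [h1]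
    intro h2
    exact hdet (io_injective (h2.trans (map_zero (io E)).symm))
  · intro e c'' hΔ hV
    rw [hFQ]
    refine hfa e c'' Q ?_ (hFQ ▸ hF0)
    refine hD e (fun i x => ((e x (c'' i) : ℕ) : E)) hV ?_
    intro h0
    apply hΔ
    have h1 : Dl n (fun l => T (σ l))
        (fun j l => if l < n then ((e l (c'' j) : ℕ) : FF E) else 0) =
        io E (Matrix.of fun i l => Du (fun x => ((e x (c'' i) : ℕ) : E)) (T (σ l))).det := by
      rw [io_det, Dl_apply]
      congr 1
      ext i l
      rw [Matrix.of_apply, Matrix.of_apply, Matrix.of_apply, rowM_apply,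
        (hDUL E).1 n (T (σ l)) _ (hvars (σ l)), map_sum]
      refine Finset.sum_congr rfl fun x hx => ?_
      rw [if_pos (Finset.mem_range.1 hx), map_mul (io E) (C _)]
      congr 1
      rw [map_natCast, map_natCast]
    rw [h1, h0, map_zero]

end

end Pool.Agent.TOR.H24
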