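import Pool.Agent.Helper24_TOR.B
import Pool.Agent.Helper57_TOR.Nu1
import Pool.Agent.Helper96_TOR.Euc

/-!
# Transvections of the homology of a free group lift to automorphisms
-/

set_option autoImplicit false

open scoped BigOperators

namespace Pool.Agent.TOR.H24

open Pool.Agent.TOR.H57

section

variable {X : Type} [DecidableEq X]

/-- exponent sum of the letter x -/
def ex (x : X) : FreeGroup X →* Multiplicative ℤ :=
  FreeGroup.lift fun y => if y = x then Multiplicative.ofAdd 1 else 1

theorem ex_of (x y : X) : ex x (FreeGroup.of y) = if y = x then Multiplicative.ofAdd 1 else 1 := by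
  unfold ex
  rw [FreeGroup.lift_apply_of]

/-- the elementary move y -> y x^k -/
theorem exists_mv (x y : X) (hxy : y ≠ x) (k : ℤ) :
    ∃ ε : MulAut (FreeGroup X), (∀ w, ex x (ε w) = ex x w * (ex y w) ^ k) ∧
      ∀ z, z ≠ x → ∀ w, ex z (ε w) = ex z w := by
  let f : ℤ → FreeGroup X →* FreeGroup X := fun k => FreeGroup.lift fun z =>
    if z = y then FreeGroup.of y * FreeGroup.of x ^ k else FreeGroup.of z
  have hf : ∀ k z, f k (FreeGroup.of z) =
      if z = y then FreeGroup.of y * FreeGroup.of x ^ k else FreeGroup.of z := by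
    intro k z
    change FreeGroup.lift _ _ = _
    rw [FreeGroup.lift_apply_of]
  have hfx : ∀ k, f k (FreeGroup.of x) = FreeGroup.of x := by
    intro k; rw [hf, if_neg (fun h => hxy h.symm)]
  have hinv : ∀ k, ∀ z, f k (f (-k) (FreeGroup.of z)) = FreeGroup.of z := by
    intro k z
    rw [hf]
    split_ifs with h
    · rw [map_mul, map_zpow, hfx, hf, if_pos rfl, h, zpow_neg, mul_inv_cancel_right]
    · rw [hf, if_neg h]
  have hinv' : ∀ z, f (-k) (f k (FreeGroup.of z)) = FreeGroup.of z := by
    intro z
    have := hinv (-k) z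
    rwa [neg_neg] at this
  refine ⟨mkAut (f k) (f (-k)) (hinv k) hinv', ?_, ?_⟩
  · intro w
    have h1 : (ex x).comp (f k) = ex x * (ex y) ^ k := by
      refine FreeGroup.ext_hom _ _ fun z => ?_
      change ex x (f k (FreeGroup.of z)) = ex x (FreeGroup.of z) * (ex y (FreeGroup.of z)) ^ k
      rw [hf]
      by_cases h : z = y
      · rw [if_pos h, map_mul, map_zpow, ex_of, ex_of, ex_of, ex_of, if_pos rfl, h, if_neg hxy,
          if_pos rfl]
      · rw [if_neg h, ex_of y z, if_neg h, one_zpow, mul_one]
    exact DFunLike.congr_fun h1 w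
  · intro z hz w
    have h1 : (ex z).comp (f k) = ex z := by
      refine FreeGroup.ext_hom _ _ fun v => ?_
      change ex z (f k (FreeGroup.of v)) = ex z (FreeGroup.of v)
      rw [hf]
      by_cases h : v = y
      · rw [if_pos h, map_mul, map_zpow, ex_of z x, if_neg (fun h' => hz h'.symm), one_zpow,
          mul_one, h]
      · rw [if_neg h]
    exact DFunLike.congr_fun h1 w

variable [Fintype X]

theorem ab_eq (w : FreeGroup X) : (Abelianization.of w : Abelianization (FreeGroup X)) =
    ∏ x, Abelianization.of (FreeGroup.of x) ^ Multiplicative.toAdd (ex x w) := by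
  let g : FreeGroup X →* Abelianization (FreeGroup X) :=
    ∏ x : X, (zpowersHom _ (Abelianization.of (FreeGroup.of x))).comp (ex x)
  have hg : ∀ w, g w = ∏ x, Abelianization.of (FreeGroup.of x) ^ Multiplicative.toAdd (ex x w) := by
    intro w
    change (∏ x : X, (zpowersHom _ (Abelianization.of (FreeGroup.of x))).comp (ex x)) w = _
    rw [MonoidHom.finsetProd_apply]
    refine Finset.prod_congr rfl fun x _ => ?_
    rfl
  have h1 : (Abelianization.of : FreeGroup X →* _) = g := by
    refine FreeGroup.ext_hom _ _ fun y => ?_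
    rw [hg, Finset.prod_eq_single y]
    · rw [ex_of, if_pos rfl, toAdd_ofAdd, zpow_one]
    · intro x _ hx
      rw [ex_of, if_neg (fun h => hx h.symm), toAdd_one, zpow_zero]
    · intro h; exact absurd (Finset.mem_univ _) h
  rw [← hg, ← h1]

/-- Euclid -/
theorem euclid [Nonempty X] (n : ℕ) : ∀ w : FreeGroup X,
    (∑ x, (Multiplicative.toAdd (ex x w)).natAbs) = n →
    ∃ (θ : MulAut (FreeGroup X)) (a : X), ∀ x, x ≠ a → ex x (θ w) = 1 := by
  induction n using Nat.strong_induction_on with
  | _ n ih =>
    intro w hw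
    by_cases hex : ∃ x y : X, y ≠ x ∧ ex x w ≠ 1 ∧ ex y w ≠ 1
    · obtain ⟨x, y, hxy, hx, hy⟩ := hex
      wlog hle : (Multiplicative.toAdd (ex y w)).natAbs ≤ (Multiplicative.toAdd (ex x w)).natAbs
        generalizing x y
      · exact this y x (fun h => hxy h.symm) hy hx (by omega)
      have hy0 : Multiplicative.toAdd (ex y w) ≠ 0 := fun h => hy (by
        rw [← ofAdd_toAdd (ex y w), h]; rfl)
      obtain ⟨k, hk⟩ := Pool.Agent.TOR96.int_move hy0 hle
      obtain ⟨ε, h1, h2⟩ := exists_mv x y hxy k
      have hx' : Multiplicative.toAdd (ex x (ε w)) =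
          Multiplicative.toAdd (ex x w) + k * Multiplicative.toAdd (ex y w) := by
        rw [h1, toAdd_mul, toAdd_zpow, smul_eq_mul]
      have hlt : (∑ z, (Multiplicative.toAdd (ex z (ε w))).natAbs) < n := by
        rw [← hw]
        refine Finset.sum_lt_sum (fun z _ => ?_) ⟨x, Finset.mem_univ _, by rw [hx']; exact hk⟩
        by_cases hz : z = x
        · rw [hz, hx']; exact hk.le
        · rw [h2 z hz]
      obtain ⟨θ, a, ha⟩ := ih _ hlt (ε w) rfl
      exact ⟨θ * ε, a, ha⟩
    · push Not at hex
      by_cases h0 : ∃ a, ex a w ≠ 1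
      · obtain ⟨a, ha⟩ := h0
        refine ⟨1, a, fun x hx => ?_⟩
        exact hex a x hx ha
      · push Not at h0
        exact ⟨1, Classical.arbitrary X, fun x _ => h0 x⟩

end

/-- transvections lift -/
theorem t_lift {X : Type} [Finite X] (w : FreeGroup X) (f : FreeGroup X →* Multiplicative ℤ)
    (hf : f w = 1) : ∃ t : MulAut (FreeGroup X), ∀ x,
      (Abelianization.of (t x) : Abelianization (FreeGroup X)) =
        Abelianization.of (x * w ^ Multiplicative.toAdd (f x)) := by
  classical
  cases nonempty_fintype X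
  rcases isEmpty_or_nonempty X with hX | hX
  · refine ⟨1, fun x => ?_⟩
    congr 1
    exact Subsingleton.elim _ _
  obtain ⟨θ, a, ha⟩ := euclid _ w rfl
  set d : ℤ := Multiplicative.toAdd (ex a (θ w)) with hd
  -- homology class of θ w
  have hcls : (Abelianization.of (θ w) : Abelianization (FreeGroup X)) =
      Abelianization.of (FreeGroup.of a) ^ d := by
    rw [ab_eq, Finset.prod_eq_single a]
    · intro x _ hx
      rw [ha x hx, toAdd_one, zpow_zero]
    · intro h; exact absurd (Finset.mem_univ _) h
  let f' : FreeGroup X →* Multiplicative ℤ :=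
    f.comp ((θ⁻¹ : MulAut (FreeGroup X)) : FreeGroup X ≃* FreeGroup X).toMonoidHom
  have hf' : ∀ x, f' (θ x) = f x := by
    intro x
    change f (θ⁻¹ (θ x)) = f x
    rw [MulAut.inv_apply_self]
  have hzero : d * Multiplicative.toAdd (f' (FreeGroup.of a)) = 0 := by
    have h1 : f' (θ w) = 1 := by rw [hf', hf]
    have h2 : Abelianization.lift f' (Abelianization.of (θ w)) =
        Abelianization.lift f' (Abelianization.of (FreeGroup.of a) ^ d) := by rw [hcls]
    rw [Abelianization.lift_apply_of, map_zpow, Abelianization.lift_apply_of, h1] at h2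
    have h3 := congrArg Multiplicative.toAdd h2
    rw [toAdd_one, toAdd_zpow, smul_eq_mul] at h3
    exact h3.symm
  let g : ℤ → FreeGroup X →* FreeGroup X := fun s => FreeGroup.lift fun z =>
    FreeGroup.of z * FreeGroup.of a ^ (s * (d * Multiplicative.toAdd (f' (FreeGroup.of z))))
  have hg : ∀ s z, g s (FreeGroup.of z) =
      FreeGroup.of z * FreeGroup.of a ^ (s * (d * Multiplicative.toAdd (f' (FreeGroup.of z)))) := by
    intro s z
    change FreeGroup.lift _ _ = _
    rw [FreeGroup.lift_apply_of]
  have hga : ∀ s, g s (FreeGroup.of a) = FreeGroup.of a := by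
    intro s; rw [hg, hzero, mul_zero, zpow_zero, mul_one]
  have hinv : ∀ s z, g s (g (-s) (FreeGroup.of z)) = FreeGroup.of z := by
    intro s z
    rw [hg, map_mul, map_zpow, hga, hg, mul_assoc, ← zpow_add, ← add_mul, add_neg_cancel,
      zero_mul, zpow_zero, mul_one]
  let t' : MulAut (FreeGroup X) := mkAut (g 1) (g (-1)) (hinv 1) (by
    intro z
    have := hinv (-1) z
    rwa [neg_neg] at this)
  have ht' : ∀ x, (Abelianization.of (t' x) : Abelianization (FreeGroup X)) =
      Abelianization.of (x * (θ w) ^ Multiplicative.toAdd (f' x)) := by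
    have h1 : (Abelianization.of : FreeGroup X →* _).comp (g 1) =
        Abelianization.of * (zpowersHom _ (Abelianization.of (θ w) :
          Abelianization (FreeGroup X))).comp f' := by
      refine FreeGroup.ext_hom _ _ fun z => ?_
      change (Abelianization.of (g 1 (FreeGroup.of z)) : Abelianization (FreeGroup X)) =
        Abelianization.of (FreeGroup.of z) *
          (Abelianization.of (θ w)) ^ Multiplicative.toAdd (f' (FreeGroup.of z))
      rw [hg, map_mul, map_zpow, hcls, ← zpow_mul, one_mul]
    intro x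
    have h2 := DFunLike.congr_fun h1 x
    change (Abelianization.of (g 1 x) : Abelianization (FreeGroup X)) =
      Abelianization.of x * (Abelianization.of (θ w)) ^ Multiplicative.toAdd (f' x) at h2
    rw [map_mul, map_zpow, ← h2]
    rfl
  refine ⟨θ⁻¹ * t' * θ, fun x => ?_⟩
  have h1 := ab_congr (θ⁻¹ : MulAut (FreeGroup X)) _ _ (ht' (θ x))
  rw [hf', map_mul, map_zpow, MulAut.inv_apply_self, MulAut.inv_apply_self] at h1
  exact h1

end Pool.Agent.TOR.H24
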